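import Pool.Agent.Q60.GL.Defs

/-!
# The Lie algebras of the Mumford-Tate group and of the monodromy group: definitions
-/

set_option autoImplicit false

namespace Pool.Agent.Q60.GT

open MvPolynomial Matrix Pool.Agent.Q60.GL

noncomputable section

variable {κ : Type} [Fintype κ] [DecidableEq κ] {w : ℤ}

/-- The derivative of the polynomial function `f` of the entries of a matrix at the unit matrix, in
the direction `B`. -/
def derivative {F R : Type} [CommRing F] [CommRing R] [Algebra F R] (f : MvPolynomial (κ × κ) F)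
    (B : Matrix κ κ R) : R :=
  ∑ q : κ × κ, B q.1 q.2 * value (1 : Matrix κ κ R) (pderiv q f)

/-- `B` belongs to the Lie algebra of the Mumford-Tate group, over the field `R`: the derivatives of
the equations over `ℚ` of the Mumford-Tate group vanish in the direction `B`. -/
def InLieMumfordTate {R : Type} [Field R] [Algebra ℚ R] (h : ℂ → Matrix κ κ ℂ)
    (B : Matrix κ κ R) : Prop :=
  ∀ f : MvPolynomial (κ × κ) ℚ, (∀ m ∈ mumfordTate h, value m f = 0) → derivative f B = 0

variable {ℓ : ℕ} [Fact ℓ.Prime] {Γ : Type} [Group Γ]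

/-- `B` belongs to the Lie algebra of the Zariski closure of the image of `ρ`: the derivatives of the
polynomials which vanish on the image of a subgroup of finite index vanish in the direction `B`. -/
def InLieMonodromy (ρ : Γ →* Matrix κ κ ℚ_[ℓ]) (B : Matrix κ κ ℚ_[ℓ]) : Prop :=
  ∀ f : MvPolynomial (κ × κ) ℚ_[ℓ],
    (∃ Δ : Subgroup Γ, Δ.FiniteIndex ∧ ∀ s ∈ Δ, value (ρ s) f = 0) → derivative f B = 0

/-- For every element `B` of the Lie algebra of the monodromy group there is an element `B'` of the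
Lie algebra of the Mumford-Tate group such that `tr (B c) = tr (B' c)` for all elements `c` of the
centre of the algebra of the endomorphisms of the Hodge structure. -/
def TracesBelow (V : HodgeStructure κ w) (ρ : Γ →* Matrix κ κ ℚ_[ℓ]) : Prop :=
  ∀ B, InLieMonodromy ρ B → ∃ B' : Matrix κ κ ℚ_[ℓ], InLieMumfordTate V.h B' ∧
    ∀ c, IsCentralEnd V c → (B * toField ℚ_[ℓ] c).trace = (B' * toField ℚ_[ℓ] c).trace

/-- For every element `B` of the Lie algebra of the Mumford-Tate group, over `ℚ_ℓ`, there is an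
element `B'` of the Lie algebra of the monodromy group such that `tr (B c) = tr (B' c)` for all
elements `c` of the centre of the algebra of the endomorphisms of the Hodge structure. -/
def TracesAbove (V : HodgeStructure κ w) (ρ : Γ →* Matrix κ κ ℚ_[ℓ]) : Prop :=
  ∀ B : Matrix κ κ ℚ_[ℓ], InLieMumfordTate V.h B → ∃ B', InLieMonodromy ρ B' ∧
    ∀ c, IsCentralEnd V c → (B * toField ℚ_[ℓ] c).trace = (B' * toField ℚ_[ℓ] c).trace

/-- The endomorphism `a` of `V_ℓ` commutes with a subgroup of finite index. -/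
def IsTateEnd (ρ : Γ →* Matrix κ κ ℚ_[ℓ]) (a : Matrix κ κ ℚ_[ℓ]) : Prop :=
  ∃ Δ : Subgroup Γ, Δ.FiniteIndex ∧ ∀ s ∈ Δ, ρ s * a = a * ρ s

/-- The centre of the algebra of the Tate endomorphisms of `V_ℓ`. -/
def IsCentralTateEnd (ρ : Γ →* Matrix κ κ ℚ_[ℓ]) (c : Matrix κ κ ℚ_[ℓ]) : Prop :=
  IsTateEnd ρ c ∧ ∀ a, IsTateEnd ρ a → a * c = c * a

/-- As `TracesAbove`, for the elements `c` of the centre of the algebra of the Tate endomorphisms
of `V_ℓ`. -/
def TracesAboveTate (V : HodgeStructure κ w) (ρ : Γ →* Matrix κ κ ℚ_[ℓ]) : Prop :=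
  ∀ B : Matrix κ κ ℚ_[ℓ], InLieMumfordTate V.h B → ∃ B', InLieMonodromy ρ B' ∧
    ∀ c, IsCentralTateEnd ρ c → (B * c).trace = (B' * c).trace

end

end Pool.Agent.Q60.GT
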