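import Pool.Agent.Q60.GL.Perf

/-!
# The trace form on the centre and on the Lie algebra of the Hodge group
-/

set_option linter.unusedSectionVars false

namespace Pool.Agent.Q60.GT

open MvPolynomial Module Matrix Pool.Agent.Q60.ED Pool.Agent.Q60.FI Pool.Agent.Q60.TD
  Pool.Agent.Q60.NP Pool.Agent.Q60.MV Pool.Agent.Q60.CJ Pool.Agent.Q60.TP Pool.Agent.Q60.GL

section form

variable {K : Type} [Field K] [CharZero K] {κ : Type} [Fintype κ] [DecidableEq κ]

/-- A linear form and the trace of a product with a rational matrix. -/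
lemma trace_form (l : K →ₗ[ℚ] ℚ) (X : Matrix κ κ K) (c : Matrix κ κ ℚ) :
    l (X * toField K c).trace = ((Matrix.of fun i j => l (X i j)) * c).trace := by
  have h1 := mul_form_right l c X
  rw [← h1, Matrix.trace, Matrix.trace, map_sum]
  rfl

/-- The trace against a span. -/
lemma trace_SpM {U : Submodule ℚ (Matrix κ κ ℚ)} {X : Matrix κ κ K}
    (h : ∀ c ∈ U, (X * toField K c).trace = 0) {c : Matrix κ κ K} (hc : c ∈ SpM K U) :
    (X * c).trace = 0 := by
  refine Submodule.span_induction (p := fun c _ => (X * c).trace = 0) ?_ ?_ ?_ ?_ hc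
  · rintro _ ⟨u, hu, rfl⟩
    exact h u hu
  · rw [Matrix.mul_zero, Matrix.trace_zero]
  · intro a b _ _ ha hb
    rw [Matrix.mul_add, Matrix.trace_add, ha, hb, add_zero]
  · intro r a _ ha
    rw [Matrix.mul_smul, Matrix.trace_smul, ha, smul_zero]

/-- A subspace on which the trace form is nondegenerate is a direct summand. -/
lemma exists_proj_of {U : Submodule K (Matrix κ κ K)}
    (hnd : ∀ X ∈ U, (∀ Y ∈ U, (X * Y).trace = 0) → X = 0) (A : Matrix κ κ K) :
    ∃ P ∈ U, ∀ Y ∈ U, (P * Y).trace = (A * Y).trace := by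
  let β : U →ₗ[K] Module.Dual K U :=
    LinearMap.mk₂ K (fun x y => ((x : Matrix κ κ K) * (y : Matrix κ κ K)).trace)
      (fun x x' y => by rw [Submodule.coe_add, Matrix.add_mul, Matrix.trace_add])
      (fun c x y => by rw [Submodule.coe_smul, Matrix.smul_mul, Matrix.trace_smul])
      (fun x y y' => by rw [Submodule.coe_add, Matrix.mul_add, Matrix.trace_add])
      (fun c x y => by rw [Submodule.coe_smul, Matrix.mul_smul, Matrix.trace_smul])
  have hβ : ∀ x y, β x y = ((x : Matrix κ κ K) * (y : Matrix κ κ K)).trace := fun _ _ => rfl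
  have hinj : Function.Injective β := by
    rw [← LinearMap.ker_eq_bot, LinearMap.ker_eq_bot']
    intro x hx
    apply Subtype.ext
    refine hnd x x.2 fun Y hY => ?_
    exact LinearMap.congr_fun hx ⟨Y, hY⟩
  have hsurj : Function.Surjective β :=
    (LinearMap.injective_iff_surjective_of_finrank_eq_finrank
      (Subspace.dual_finrank_eq).symm).1 hinj
  let φ : Module.Dual K U :=
    { toFun := fun y => (A * (y : Matrix κ κ K)).trace
      map_add' := fun x y => by rw [Submodule.coe_add, Matrix.mul_add, Matrix.trace_add]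
      map_smul' := fun c x => by
        rw [Submodule.coe_smul, Matrix.mul_smul, Matrix.trace_smul]; rfl }
  obtain ⟨P, hP⟩ := hsurj φ
  exact ⟨P, P.2, fun Y hY => LinearMap.congr_fun hP ⟨Y, hY⟩⟩

/-- The elements of a Lie algebra with nondegenerate trace form which are orthogonal to its centre
are combinations of commutators. -/
lemma mem_of_orth {U D : Submodule K (Matrix κ κ K)}
    (hnd : ∀ X ∈ U, (∀ Y ∈ U, (X * Y).trace = 0) → X = 0)
    (hbr : ∀ X ∈ U, ∀ Y ∈ U, X * Y - Y * X ∈ U)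
    (hD : ∀ X ∈ U, ∀ Y ∈ U, X * Y - Y * X ∈ D) {u : Matrix κ κ K} (hu : u ∈ U)
    (hz : ∀ z ∈ U, (∀ Y ∈ U, z * Y = Y * z) → (z * u).trace = 0) : u ∈ D := by
  by_contra hle
  let β : U →ₗ[K] Module.Dual K U :=
    LinearMap.mk₂ K (fun x y => ((x : Matrix κ κ K) * (y : Matrix κ κ K)).trace)
      (fun x x' y => by rw [Submodule.coe_add, Matrix.add_mul, Matrix.trace_add])
      (fun c x y => by rw [Submodule.coe_smul, Matrix.smul_mul, Matrix.trace_smul])
      (fun x y y' => by rw [Submodule.coe_add, Matrix.mul_add, Matrix.trace_add])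
      (fun c x y => by rw [Submodule.coe_smul, Matrix.mul_smul, Matrix.trace_smul])
  have hβ : ∀ x y, β x y = ((x : Matrix κ κ K) * (y : Matrix κ κ K)).trace := fun _ _ => rfl
  have hinj : Function.Injective β := by
    rw [← LinearMap.ker_eq_bot, LinearMap.ker_eq_bot']
    intro x hx
    apply Subtype.ext
    refine hnd x x.2 fun Y hY => ?_
    exact LinearMap.congr_fun hx ⟨Y, hY⟩
  have hsurj : Function.Surjective β :=
    (LinearMap.injective_iff_surjective_of_finrank_eq_finrank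
      (Subspace.dual_finrank_eq).symm).1 hinj
  let D' : Submodule K U := D.comap U.subtype
  have hu' : (⟨u, hu⟩ : U) ∉ D' := hle
  obtain ⟨f, hf, hf'⟩ := Submodule.exists_le_ker_of_notMem hu'
  obtain ⟨x, rfl⟩ := hsurj f
  have hcom : ∀ Y ∈ U, (x : Matrix κ κ K) * Y - Y * x = 0 := by
    intro Y hY
    refine hnd _ (hbr x x.2 Y hY) fun Z hZ => ?_
    have h1 : (⟨Y * Z - Z * Y, hbr Y hY Z hZ⟩ : U) ∈ D' := hD Y hY Z hZ
    have h2 := hf' h1
    rw [LinearMap.mem_ker, hβ] at h2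
    simp only at h2
    rw [← h2]
    rw [Matrix.sub_mul, Matrix.mul_sub, Matrix.trace_sub, Matrix.trace_sub, Matrix.mul_assoc,
      Matrix.mul_assoc, Matrix.trace_mul_comm Y, Matrix.mul_assoc]
  exact hf (hz x x.2 fun Y hY => sub_eq_zero.1 (hcom Y hY))

end form

section hodge

variable {κ : Type} [Fintype κ] [DecidableEq κ] {w : ℤ} {V : HodgeStructure κ w}
  {Q : Matrix κ κ ℚ} (hQ : IsPolarisation V Q)

include hQ

/-- The adjoint of an endomorphism of the Hodge structure, for a form which is invariant under the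
circle. -/
lemma end_adj {q : Matrix κ κ ℚ} (hq : q.det ≠ 0)
    (hinv : ∀ u : ℂ, u ≠ 0 → (cz V u)ᵀ * toField ℂ q * cz V u = toField ℂ q)
    {c : Matrix κ κ ℚ} (hc : IsHodgeEnd V c) : IsHodgeEnd V (q⁻¹ * cᵀ * q) := by
  intro z hz
  obtain ⟨s, u, hs, hu, h1⟩ := h_eq_smul (V := V) hz
  have h2 := hc z hz
  rw [h1, Matrix.smul_mul, Matrix.mul_smul] at h2
  have h3 : cz V u * toField ℂ c = toField ℂ c * cz V u := by
    have h4 := congrArg (fun M => s⁻¹ • M) h2
    simp only [smul_smul, inv_mul_cancel₀ hs, one_smul] at h4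
    exact h4
  have hqC := toField_det (K := ℂ) hq
  have hqu := isUnit_iff_ne_zero.2 hqC
  have h5 : toField ℂ (q⁻¹ * cᵀ * q) = (toField ℂ q)⁻¹ * (toField ℂ c)ᵀ * toField ℂ q := by
    rw [toField_mul, toField_mul, toField_inv']
    rfl
  set C := cz V u with hC
  set R := toField ℂ q with hR
  have hCd : C.det ≠ 0 := phs_det hQ hu
  have hCu := isUnit_iff_ne_zero.2 hCd
  have h6 : R * C = (Cᵀ)⁻¹ * R := by
    have h7 := hinv u hu
    have h8 : IsUnit Cᵀ.det := by rw [Matrix.det_transpose]; exact hCu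
    calc R * C = (Cᵀ)⁻¹ * (Cᵀ * R * C) := by
          rw [← Matrix.mul_assoc, ← Matrix.mul_assoc, Matrix.nonsing_inv_mul _ h8,
            Matrix.one_mul]
      _ = _ := by rw [h7]
  have h7 : C * R⁻¹ = R⁻¹ * (Cᵀ)⁻¹ := by
    have h8 : R⁻¹ * (R * C) * R⁻¹ = R⁻¹ * ((Cᵀ)⁻¹ * R) * R⁻¹ := by rw [h6]
    rw [← Matrix.mul_assoc, Matrix.nonsing_inv_mul _ hqu, Matrix.one_mul, Matrix.mul_assoc,
      Matrix.mul_assoc, Matrix.mul_nonsing_inv _ hqu, Matrix.mul_one] at h8
    exact h8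
  have h8 : (Cᵀ)⁻¹ * (toField ℂ c)ᵀ = (toField ℂ c)ᵀ * (Cᵀ)⁻¹ := by
    have h9 : IsUnit Cᵀ.det := by rw [Matrix.det_transpose]; exact hCu
    have h10 : (toField ℂ c)ᵀ * Cᵀ = Cᵀ * (toField ℂ c)ᵀ := by
      rw [← Matrix.transpose_mul, h3, Matrix.transpose_mul]
    calc (Cᵀ)⁻¹ * (toField ℂ c)ᵀ = (Cᵀ)⁻¹ * ((toField ℂ c)ᵀ * Cᵀ) * (Cᵀ)⁻¹ := by
          rw [Matrix.mul_assoc, Matrix.mul_assoc, Matrix.mul_nonsing_inv _ h9, Matrix.mul_one]
      _ = (Cᵀ)⁻¹ * (Cᵀ * (toField ℂ c)ᵀ) * (Cᵀ)⁻¹ := by rw [h10]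
      _ = _ := by rw [← Matrix.mul_assoc (Cᵀ)⁻¹, Matrix.nonsing_inv_mul _ h9, Matrix.one_mul]
  rw [h1, h5, Matrix.smul_mul, Matrix.mul_smul]
  congr 1
  calc C * (R⁻¹ * (toField ℂ c)ᵀ * R) = (C * R⁻¹) * (toField ℂ c)ᵀ * R := by
        simp only [Matrix.mul_assoc]
    _ = R⁻¹ * ((Cᵀ)⁻¹ * (toField ℂ c)ᵀ) * R := by
        rw [h7]
        simp only [Matrix.mul_assoc]
    _ = R⁻¹ * (toField ℂ c)ᵀ * ((Cᵀ)⁻¹ * R) := by
        rw [h8]
        simp only [Matrix.mul_assoc]
    _ = _ := by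
        rw [← h6]
        simp only [Matrix.mul_assoc]

lemma inv_Q {u : ℂ} (hu : u ≠ 0) : (cz V u)ᵀ * toField ℂ Q * cz V u = toField ℂ Q :=
  cz_inv hQ hu

lemma inv_Qt {u : ℂ} (hu : u ≠ 0) : (cz V u)ᵀ * toField ℂ Qᵀ * cz V u = toField ℂ Qᵀ := by
  have h1 := congrArg Matrix.transpose (cz_inv hQ hu)
  rw [Matrix.transpose_mul, Matrix.transpose_mul, Matrix.transpose_transpose,
    ← Matrix.mul_assoc] at h1
  exact h1

/-- The adjoint of a central endomorphism is central. -/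
lemma ZA_adj {c : Matrix κ κ ℚ} (hc : c ∈ ZA V) : Q⁻¹ * cᵀ * Q ∈ ZA V := by
  have hd := pol_det hQ
  have hu := isUnit_iff_ne_zero.2 hd
  have hut : IsUnit Qᵀ.det := by rw [Matrix.det_transpose]; exact hu
  refine ⟨end_adj hQ hd (fun u hu => inv_Q hQ hu) hc.1, fun a ha => ?_⟩
  have h1 : IsHodgeEnd V ((Qᵀ)⁻¹ * aᵀ * Qᵀ) :=
    end_adj hQ (by rw [Matrix.det_transpose]; exact hd) (fun u hu => inv_Qt hQ hu) ha
  have h2 := hc.2 _ h1
  have h4 : ((Qᵀ)⁻¹ * aᵀ * Qᵀ)ᵀ = Q * a * Q⁻¹ := by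
    rw [Matrix.transpose_mul, Matrix.transpose_mul, Matrix.transpose_transpose,
      Matrix.transpose_transpose, ← Matrix.transpose_nonsing_inv, Matrix.transpose_transpose,
      Matrix.mul_assoc]
  have h3 : cᵀ * (Q * a * Q⁻¹) = Q * a * Q⁻¹ * cᵀ := by
    rw [← h4, ← Matrix.transpose_mul, ← Matrix.transpose_mul, h2]
  have h5 : Q⁻¹ * (cᵀ * (Q * a * Q⁻¹)) * Q = Q⁻¹ * (Q * a * Q⁻¹ * cᵀ) * Q := by rw [h3]
  calc a * (Q⁻¹ * cᵀ * Q) = Q⁻¹ * (Q * a * Q⁻¹ * cᵀ) * Q := by
        have h6 : Q⁻¹ * (Q * a * Q⁻¹ * cᵀ) * Q = (Q⁻¹ * Q) * a * Q⁻¹ * cᵀ * Q := by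
          simp only [Matrix.mul_assoc]
        rw [h6, Matrix.nonsing_inv_mul _ hu, Matrix.one_mul]
        simp only [Matrix.mul_assoc]
    _ = Q⁻¹ * (cᵀ * (Q * a * Q⁻¹)) * Q := h5.symm
    _ = Q⁻¹ * cᵀ * Q * a := by
        have h6 : Q⁻¹ * (cᵀ * (Q * a * Q⁻¹)) * Q = Q⁻¹ * cᵀ * Q * a * (Q⁻¹ * Q) := by
          simp only [Matrix.mul_assoc]
        rw [h6, Matrix.nonsing_inv_mul _ hu, Matrix.mul_one]

/-- The trace form is nondegenerate on the centre. -/
lemma ZA_trace {c : Matrix κ κ ℚ} (hc : c ∈ ZA V) (h : ∀ d ∈ ZA V, (c * d).trace = 0) :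
    c = 0 := by
  obtain ⟨B, hB, hG⟩ := gram_of hQ
  have hI : Complex.I ≠ 0 := Complex.I_ne_zero
  have hd := pol_det hQ
  have hQd := toField_det (K := ℂ) hd
  have hu := isUnit_iff_ne_zero.2 hQd
  have h1 := h _ (ZA_adj hQ hc)
  have hG' : toField ℂ Q * cz V Complex.I = B.conjTranspose * B := hG
  have hWW : cz V Complex.I⁻¹ * cz V Complex.I = 1 := by
    rw [cz, cz, op_mul, ← op_one V]
    refine op_congr V fun a _ => ?_
    rw [← mul_zpow, inv_mul_cancel₀ hI, _root_.one_zpow]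
  -- the adjoint commutes with the Weil operator
  have h3 : cz V Complex.I * toField ℂ (Q⁻¹ * cᵀ * Q) =
      toField ℂ (Q⁻¹ * cᵀ * Q) * cz V Complex.I := by
    have h4 := hom_cz (isHom_K2.2 (ZA_adj hQ hc).1) hI
    have h5 : toField ℂ (K2 (Q⁻¹ * cᵀ * Q) 1) = K2 (toField ℂ (Q⁻¹ * cᵀ * Q)) 1 := by
      rw [toField_K2, toField_one]
    rw [h5] at h4
    exact (K2_comm_iff (phs_det hQ hI)).1 h4
  have h4 : ((toField ℂ Q * cz V Complex.I)⁻¹ * (toField ℂ c).conjTranspose *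
      (toField ℂ Q * cz V Complex.I)) = toField ℂ (Q⁻¹ * cᵀ * Q) := by
    have h5 : (toField ℂ c).conjTranspose = (toField ℂ c)ᵀ := by
      ext i j
      simp [toField]
    have h6 : (cz V Complex.I)⁻¹ = cz V Complex.I⁻¹ := Matrix.inv_eq_left_inv hWW
    rw [h5, Matrix.mul_inv_rev, h6]
    calc cz V Complex.I⁻¹ * (toField ℂ Q)⁻¹ * (toField ℂ c)ᵀ * (toField ℂ Q * cz V Complex.I)
        = cz V Complex.I⁻¹ * (toField ℂ (Q⁻¹ * cᵀ * Q) * cz V Complex.I) := by
          rw [toField_mul, toField_mul, ← toField_inv']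
          simp only [Matrix.mul_assoc]
          rfl
      _ = cz V Complex.I⁻¹ * cz V Complex.I * toField ℂ (Q⁻¹ * cᵀ * Q) := by
          rw [← h3]
          exact (Matrix.mul_assoc _ _ _).symm
      _ = _ := by rw [hWW, Matrix.one_mul]
  have h5 : toField ℂ c = 0 := by
    refine trace_pos hB hG' ?_
    rw [h4, ← toField_mul]
    have h6 : (toField ℂ (c * (Q⁻¹ * cᵀ * Q))).trace =
        algebraMap ℚ ℂ (c * (Q⁻¹ * cᵀ * Q)).trace := by
      rw [Matrix.trace, Matrix.trace, map_sum]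
      rfl
    rw [h6, h1, map_zero]
  ext i j
  have h6 := congrFun (congrFun h5 i) j
  rw [toField, Matrix.map_apply, Matrix.zero_apply] at h6
  exact (map_eq_zero (algebraMap ℚ ℂ)).1 h6

variable {K : Type} [Field K] [CharZero K]

/-- The trace form is nondegenerate on the centre, over an extension. -/
lemma ZK_trace {X : Matrix κ κ K} (hX : X ∈ SpM K (Subalgebra.toSubmodule (ZA V)))
    (h : ∀ Y ∈ SpM K (Subalgebra.toSubmodule (ZA V)), (X * Y).trace = 0) : X = 0 := by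
  ext i j
  rw [Matrix.zero_apply]
  apply eq_zero_of_forms (K := ℚ)
  intro l
  have h1 : (Matrix.of fun i j => l (X i j)) ∈ Subalgebra.toSubmodule (ZA V) := form_SpM l hX
  have h2 := ZA_trace hQ h1 fun d hd => by
    have h3 : (X * toField K d).trace = 0 := h _ (map_mem_SpM hd)
    rw [← trace_form, h3, map_zero]
  exact congrFun (congrFun h2 i) j

/-- The trace form is nondegenerate on the Lie algebra, over an extension. -/
lemma HLK_trace {X : Matrix κ κ K} (hX : X ∈ HL K hQ)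
    (h : ∀ Y ∈ HL K hQ, (X * Y).trace = 0) : X = 0 := by
  ext i j
  rw [Matrix.zero_apply]
  apply eq_zero_of_forms (K := ℚ)
  intro l
  have h1 : (Matrix.of fun i j => l (X i j)) ∈ HL ℚ hQ := fun n t ht => HL_form hQ hX l n t ht
  have h2 := HL_trace hQ h1 fun Y hY => by
    rw [← trace_form]
    have h3 : toField K Y ∈ HL K hQ := HL_rat (K := K) hQ fun n t ht => hY n t ht
    rw [h _ h3, map_zero]
  exact congrFun (congrFun h2 i) j

/-- The central endomorphisms commute with the Lie algebra. -/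
lemma ZK_comm {A c : Matrix κ κ K} (hA : A ∈ HL K hQ)
    (hc : c ∈ SpM K (Subalgebra.toSubmodule (ZA V))) : A * c = c * A := by
  refine Submodule.span_induction (p := fun c _ => A * c = c * A) ?_ ?_ ?_ ?_ hc
  · rintro _ ⟨u, hu, rfl⟩
    exact K2_comm (HL_comm hQ hA (K2_end hu.1))
  · rw [Matrix.mul_zero, Matrix.zero_mul]
  · intro a b _ _ ha hb
    rw [Matrix.mul_add, Matrix.add_mul, ha, hb]
  · intro r a _ ha
    rw [Matrix.mul_smul, Matrix.smul_mul, ha]

/-- The elements of the Lie algebra which commute with it are central endomorphisms. -/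
lemma HL_central {z : Matrix κ κ K} (hz : z ∈ HL K hQ) (h : ∀ Y ∈ HL K hQ, z * Y = Y * z) :
    z ∈ SpM K (Subalgebra.toSubmodule (ZA V)) :=
  central_mem hQ (fun B hB => (h B hB).symm)
    fun _ ha => (K2_comm (HL_comm hQ hz (K2_end ha))).symm

/-- **The centre of the Lie algebra has the same traces as the Lie algebra.** -/
theorem exists_zeta {y : Matrix κ κ K} (hy : y ∈ HL K hQ) :
    ∃ ζ ∈ HL K hQ, ζ ∈ SpM K (Subalgebra.toSubmodule (ZA V)) ∧
      ∀ c ∈ SpM K (Subalgebra.toSubmodule (ZA V)), (ζ * c).trace = (y * c).trace := by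
  obtain ⟨ζ, hζ, hζt⟩ := exists_proj_of (fun X hX h => ZK_trace hQ hX h) y
  have hp : ∀ A : Matrix κ κ K, ∃ P ∈ HL K hQ, ∀ Y ∈ HL K hQ, (P * Y).trace = (A * Y).trace :=
    fun A => exists_proj_of (fun X hX h => HLK_trace hQ hX h) A
  choose p hp1 hp2 using hp
  -- the projection of a central element is central
  have h1 : ∀ c ∈ SpM K (Subalgebra.toSubmodule (ZA V)),
      p c ∈ SpM K (Subalgebra.toSubmodule (ZA V)) := by
    intro c hc
    refine HL_central hQ (hp1 c) fun Y hY => ?_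
    rw [← sub_eq_zero]
    refine HLK_trace hQ (HL_br hQ (hp1 c) hY) fun Z hZ => ?_
    have h2 : ((p c * Y - Y * p c) * Z).trace = (p c * (Y * Z - Z * Y)).trace := by
      rw [Matrix.sub_mul, Matrix.mul_sub, Matrix.trace_sub, Matrix.trace_sub, Matrix.mul_assoc,
        Matrix.mul_assoc, Matrix.trace_mul_comm Y, Matrix.mul_assoc]
    have h3 : (c * (Y * Z - Z * Y)).trace = ((c * Y - Y * c) * Z).trace := by
      rw [Matrix.sub_mul, Matrix.mul_sub, Matrix.trace_sub, Matrix.trace_sub, Matrix.mul_assoc,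
        Matrix.mul_assoc, Matrix.trace_mul_comm Y, Matrix.mul_assoc]
    rw [h2, hp2 c _ (HL_br hQ hY hZ), h3, ZK_comm hQ hY hc, sub_self, Matrix.zero_mul,
      Matrix.trace_zero]
  have h2 : ζ = p ζ := by
    rw [← sub_eq_zero]
    refine ZK_trace hQ (Submodule.sub_mem _ hζ (h1 ζ hζ)) fun c hc => ?_
    have h3 : (p ζ * c).trace = (ζ * c).trace := by
      calc (p ζ * c).trace = (c * p ζ).trace := Matrix.trace_mul_comm _ _
        _ = (p c * p ζ).trace := (hp2 c _ (hp1 ζ)).symm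
        _ = (p ζ * p c).trace := Matrix.trace_mul_comm _ _
        _ = (ζ * p c).trace := hp2 ζ _ (hp1 c)
        _ = (y * p c).trace := hζt _ (h1 c hc)
        _ = (p c * y).trace := Matrix.trace_mul_comm _ _
        _ = (c * y).trace := hp2 c _ hy
        _ = (y * c).trace := Matrix.trace_mul_comm _ _
        _ = (ζ * c).trace := (hζt c hc).symm
    rw [Matrix.sub_mul, Matrix.trace_sub, h3, sub_self]
  refine ⟨ζ, ?_, hζ, hζt⟩
  rw [h2]
  exact hp1 ζ

/-- The elements of the Lie algebra whose traces against the centre vanish are combinations of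
commutators. -/
theorem mem_D {D : Submodule K (Matrix κ κ K)}
    (hD : ∀ X ∈ HL K hQ, ∀ Y ∈ HL K hQ, X * Y - Y * X ∈ D) {u : Matrix κ κ K}
    (hu : u ∈ HL K hQ)
    (h : ∀ c ∈ SpM K (Subalgebra.toSubmodule (ZA V)), (u * c).trace = 0) : u ∈ D :=
  mem_of_orth (fun X hX h => HLK_trace hQ hX h) (fun X hX Y hY => HL_br hQ hX hY) hD hu
    fun z hz hzc => by
      rw [Matrix.trace_mul_comm]
      exact h z (HL_central hQ hz hzc)

/-- Skew matrices have trace zero. -/
lemma skw_trace {z : Matrix κ κ K} (hz : Skw (toField K Q) z) : z.trace = 0 := by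
  have hu := isUnit_iff_ne_zero.2 (toField_det (K := K) (pol_det hQ))
  have h1 := congrArg (fun M => (M * toField K Q).trace) hz
  simp only [Matrix.add_mul, Matrix.trace_add, Matrix.zero_mul, Matrix.trace_zero] at h1
  rw [Matrix.mul_assoc, Matrix.nonsing_inv_mul _ hu, Matrix.mul_one, Matrix.trace_mul_comm,
    ← Matrix.mul_assoc, Matrix.mul_nonsing_inv _ hu, Matrix.one_mul, Matrix.trace_transpose] at h1
  have h2 : (2 : K) * z.trace = 0 := by rw [two_mul]; exact h1
  exact (mul_eq_zero.1 h2).resolve_left two_ne_zero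

end hodge

end Pool.Agent.Q60.GT
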