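import Pool.Agent.Q60.GT.Defs
import Pool.Agent.Q60.GT.Tr
import Pool.Agent.Q60.GL.Final
import Pool.Agent.Q60.GL.Mot2

/-!
# The Lie algebras of the Mumford-Tate group and of the monodromy group
-/

set_option linter.unusedSectionVars false

namespace Pool.Agent.Q60.GT

open MvPolynomial Module Matrix Pool.Agent.Q60.ED Pool.Agent.Q60.FI Pool.Agent.Q60.TD
  Pool.Agent.Q60.NP Pool.Agent.Q60.MV Pool.Agent.Q60.CJ Pool.Agent.Q60.TP Pool.Agent.Q60.GL

section tangent

variable {K : Type} [Field K] [CharZero K] {κ : Type} [Fintype κ] [DecidableEq κ] {w : ℤ}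
  {V : HodgeStructure κ w} {Q : Matrix κ κ ℚ}

lemma deriv_self (f : MvPolynomial (κ × κ) K) (B : Matrix κ κ K) :
    derivative f B = ∑ p : κ × κ, B p.1 p.2 * grd f p := rfl

lemma deriv_eq (f : MvPolynomial (κ × κ) ℚ) (B : Matrix κ κ K) :
    derivative f B = evM (1 : Matrix κ κ K) (dA B (MvPolynomial.map (algebraMap ℚ K) f)) := by
  rw [evM_dA, derivative]
  refine Finset.sum_congr rfl fun p _ => ?_
  rw [grd_apply, value_eq, MvPolynomial.pderiv_map]

lemma map_FM {a b : ℕ} (M : Matrix (Fin a → κ) (Fin b → κ) ℚ)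
    (p : (Fin a → κ) × (Fin b → κ)) :
    MvPolynomial.map (algebraMap ℚ K) (FM M p) = FM (toField K M) p := by
  rw [FM, FM, map_sub, xt, xt, map_sum, map_sum]
  congr 1
  · refine Finset.sum_congr rfl fun J _ => ?_
    rw [map_mul, map_C, map_mon]
    rfl
  · refine Finset.sum_congr rfl fun J _ => ?_
    rw [map_mul, map_C, map_mon]
    rfl

/-- The Lie algebra of the Mumford-Tate group commutes with the homomorphisms. -/
lemma comm_of_lie {B : Matrix κ κ K} (hB : InLieMumfordTate V.h B) {a b : ℕ}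
    {A : Matrix (Fin a → κ) (Fin b → κ) ℚ} (hA : IsHom V A) :
    am B a * toField K A = toField K A * am B b := by
  ext I J
  have h1 := hB (FM A (I, J)) fun m hm => by
    rw [value_FM]
    have h2 := mt_comm (fun z hz => h_det V hz) hA hm
    change (TP m a * toField ℂ A - toField ℂ A * TP m b) I J = 0
    rw [h2, sub_self]
    rfl
  rw [deriv_eq, map_FM, dA_FM, map_add, evM_one_xt, map_sum,
    Finset.sum_eq_zero fun L _ => by
      rw [map_mul, evM_FM, TP_one, TP_one, Matrix.one_mul, Matrix.mul_one, sub_self]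
      exact mul_zero _, add_zero, Matrix.sub_apply, sub_eq_zero] at h1
  exact h1

/-- The operator `Ω ⊗ Q` is an endomorphism of the square of the Hodge structure. -/
lemma hom_cas (hQ : IsPolarisation V Q) : IsHom V (casM Q) := by
  intro z hz
  obtain ⟨s, u, hs, hu, h1⟩ := h_eq_smul (V := V) hz
  have h2 : toField ℂ (casM Q) = casM (toField ℂ Q) := by
    ext I J
    rw [toField, Matrix.map_apply, casM, casM, Matrix.of_apply, Matrix.of_apply, map_mul,
      toField_inv']
    rfl
  rw [h2]
  refine casM_comm (c := s ^ 2) (toField_det (pol_det hQ)) (h_det V hz) ?_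
  rw [h1, Matrix.transpose_smul, Matrix.smul_mul, Matrix.smul_mul, Matrix.mul_smul, smul_smul,
    cz_inv hQ hu, sq]

/-- The form is a homomorphism in weight zero. -/
lemma hom_Om (hQ : IsPolarisation V Q) (hw : w = 0) :
    IsHom V (Matrix.of fun (I : Fin 2 → κ) (_ : Fin 0 → κ) => Q⁻¹ (I 0) (I 1)) := by
  intro z hz
  have h1 := h_eq_smul' (V := V) hz
  have h2 : (‖z‖ : ℂ) ^ (-w) = 1 := by rw [hw, neg_zero, zpow_zero]
  have hr : (‖z‖ : ℂ) ≠ 0 := by
    rw [Ne, Complex.ofReal_eq_zero, norm_eq_zero]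
    exact hz
  rw [h2, one_smul] at h1
  have h3 : TP (V.h z) 0 = 1 := by
    ext I J
    rw [TP_apply, Finset.univ_eq_empty, Finset.prod_empty, Subsingleton.elim I J,
      Matrix.one_apply_eq]
  rw [h3, Matrix.mul_one]
  ext I J
  have h4 := congrFun (TP_vec (V.h z) (toField ℂ Q⁻¹)) I
  rw [h1, cz_Om hQ (div_ne_zero hr hz), Matrix.mulVec, dotProduct] at h4
  rw [Matrix.mul_apply, h1]
  exact h4

/-- A matrix which commutes with all homomorphisms is the sum of a scalar and an element of the Lie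
algebra of the Hodge group. -/
lemma dec_of_comm (hQ : IsPolarisation V Q) {B : Matrix κ κ K}
    (hB : ∀ (a b : ℕ) (A : Matrix (Fin a → κ) (Fin b → κ) ℚ), IsHom V A →
      am B a * toField K A = toField K A * am B b) :
    ∃ μ : K, B - μ • 1 ∈ HL K hQ ∧ (w = 0 → μ = 0) := by
  have hQK := toField_det (K := K) (pol_det hQ)
  set q := toField K Q with hq
  have hcas : toField K (casM Q) = casM q := by
    ext I J
    rw [toField, Matrix.map_apply, casM, casM, Matrix.of_apply, Matrix.of_apply, map_mul, hq,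
      toField_inv']
    rfl
  -- the scalar
  have key : ∃ μ : K, Skw q (B - μ • 1) ∧ (w = 0 → μ = 0) := by
    have h0 : w = 0 → Skw q B := by
      intro hw
      have h2 := hB _ _ _ (hom_Om hQ hw)
      have h3 : am B 0 = 0 := by
        ext I J
        have h4 := congrFun (congrFun (Matrix.mul_one (am B 0)) I) J
        rw [← h4, am_mul, Finset.univ_eq_empty, Finset.sum_empty]
        rfl
      rw [h3, Matrix.mul_zero] at h2
      rw [skw_iff]
      funext I
      have h4 := congrFun (congrFun h2 I) Fin.elim0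
      rw [Matrix.mul_apply] at h4
      rw [← am_mulVec, Matrix.mulVec, dotProduct]
      rw [Matrix.zero_apply] at h4
      refine Eq.trans (Finset.sum_congr rfl fun J _ => ?_) h4
      congr 1
      rw [hq, toField_inv']
      rfl
    rcases eq_or_ne w 0 with hw | hw
    · exact ⟨0, by rw [zero_smul, sub_zero]; exact h0 hw, fun _ => rfl⟩
    have h2 := hB _ _ _ (hom_cas hQ)
    rw [hcas] at h2
    by_cases hκ : ∃ i j, q i j ≠ 0
    · obtain ⟨i, j, hij⟩ := hκ
      have h3 : ∀ a b, (B * q⁻¹ + q⁻¹ * Bᵀ) a b * q i j = q⁻¹ a b * (Bᵀ * q + q * B) i j := by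
        intro a b
        have h4 := congrFun (congrFun h2 ![a, b]) ![i, j]
        rw [mul_casM' (am B 2) _ (am_vec B q⁻¹), casM_mul (am B 2) (Bᵀ * q + q * B) (by
          rw [← am_transpose, am_vec, Matrix.transpose_transpose])] at h4
        exact h4
      set μ' := (Bᵀ * q + q * B) i j / q i j with hμ
      have h5 : B * q⁻¹ + q⁻¹ * Bᵀ = μ' • q⁻¹ := by
        ext a b
        rw [Matrix.smul_apply, smul_eq_mul, hμ, div_mul_eq_mul_div, eq_div_iff hij, h3]
        ring
      refine ⟨μ' / 2, ?_, fun h => absurd h hw⟩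
      rw [Skw, Matrix.sub_mul, Matrix.transpose_sub, Matrix.mul_sub, Matrix.transpose_smul,
        Matrix.transpose_one, Matrix.smul_mul, Matrix.mul_smul, Matrix.one_mul, Matrix.mul_one]
      have h6 : B * q⁻¹ - (μ' / 2) • q⁻¹ + (q⁻¹ * Bᵀ - (μ' / 2) • q⁻¹) =
          (B * q⁻¹ + q⁻¹ * Bᵀ) - ((μ' / 2) + (μ' / 2)) • q⁻¹ := by
        rw [add_smul]
        abel
      rw [h6, h5, add_halves, sub_self]
    · push Not at hκ
      have h3 : q = 0 := by
        ext i j
        exact hκ i j
      refine ⟨0, ?_, fun _ => rfl⟩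
      have h4 : q⁻¹ = 0 := by
        rw [h3]
        exact Matrix.inv_zero
      rw [Skw, h4]
      simp
  obtain ⟨μ, h1, h2⟩ := key
  refine ⟨μ, HL_of_comm hQ h1 fun a b A hA => ?_, h2⟩
  have h3 := hB a b A hA
  have h4 : ∀ n, am (B - μ • 1) n = am B n - (μ * n) • 1 := by
    intro n
    have h5 : am B n = am (B - μ • 1) n + (μ * n) • 1 := by
      have h6 : B = (B - μ • 1) + μ • 1 := by rw [sub_add_cancel]
      conv_lhs => rw [h6, am_add, am_smul, am_one, smul_smul]
    rw [h5, add_sub_cancel_right]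
  rw [h4 a, h4 b, Matrix.sub_mul, Matrix.mul_sub, h3, Matrix.smul_mul, Matrix.mul_smul,
    Matrix.one_mul, Matrix.mul_one]
  congr 1
  rcases eq_or_ne w 0 with hw | hw
  · rw [h2 hw, zero_mul, zero_mul]
  · by_cases hab : a = b
    · subst hab
      rfl
    · rw [hom_eq_zero hw hab hA]
      have h6 : toField K (0 : Matrix (Fin a → κ) (Fin b → κ) ℚ) = 0 :=
        Matrix.map_zero _ (map_zero _)
      rw [h6, smul_zero, smul_zero]

/-- The elements of the Lie algebra of the Mumford-Tate group. -/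
lemma lie_dec (hQ : IsPolarisation V Q) {B : Matrix κ κ K} (hB : InLieMumfordTate V.h B) :
    ∃ μ : K, B - μ • 1 ∈ HL K hQ ∧ (w = 0 → μ = 0) :=
  dec_of_comm hQ fun _ _ _ hA => comm_of_lie hB hA

lemma lie_of_gx {L : Type} [Field L] [CharZero L] [Algebra K L] (τ : L ≃+* ℂ) {B : Matrix κ κ K}
    (h : ∀ t, InMumfordTate V.h (gx τ (B.map (algebraMap K L)) t)) :
    InLieMumfordTate V.h B := by
  intro f hf
  have hKL := tower_rat (K := K) (L := L)
  have h1 : evM (1 : Matrix κ κ L) (dA (B.map (algebraMap K L))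
      (MvPolynomial.map (algebraMap ℚ L) f)) = 0 := by
    refine dA_of_gx τ fun t => ?_
    rw [← value_eq]
    exact h t f hf
  have h2 : MvPolynomial.map (algebraMap ℚ L) f =
      MvPolynomial.map (algebraMap K L) (MvPolynomial.map (algebraMap ℚ K) f) := by
    rw [MvPolynomial.map_map, ← IsScalarTower.algebraMap_eq]
  have h5 : (1 : Matrix κ κ L) = (1 : Matrix κ κ K).map (algebraMap K L) :=
    (Matrix.map_one _ (map_zero _) (map_one _)).symm
  rw [h2, ← dA_mapR, h5, evM_mapR] at h1
  rw [deriv_eq]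
  exact (map_eq_zero _).1 h1

/-- The sums of scalars and elements of the Lie algebra of the Hodge group belong to the Lie algebra
of the Mumford-Tate group. -/
lemma lie_of_dec {L : Type} [Field L] [CharZero L] [Algebra K L] (τ : L ≃+* ℂ)
    (hQ : IsPolarisation V Q) {B : Matrix κ κ K} {μ : K}
    (h1 : B - μ • 1 ∈ HL K hQ) (h2 : w = 0 → μ = 0) : InLieMumfordTate V.h B := by
  refine lie_of_gx τ fun t => inMT_gx τ hQ (fun a b A hA => ?_) t
  have h4 := comm_of_dec hQ h1 h2 hA
  have h5 := congrArg (fun M => M.map (algebraMap K L)) h4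
  simp only [Matrix.map_mul, toField_map, ← am_map] at h5
  exact h5

end tangent

end Pool.Agent.Q60.GT
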