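import Pool.Agent.Q60.GT.Thm
import Pool.Agent.W457.T4

/-!
# The second inclusion of the Mumford-Tate conjecture, the tensor square and the traces
-/

set_option linter.unusedSectionVars false

namespace Pool.Agent.Q60.GT

open MvPolynomial Module Matrix Pool.Agent.Q60.ED Pool.Agent.Q60.FI Pool.Agent.Q60.TD
  Pool.Agent.Q60.NP Pool.Agent.Q60.MV Pool.Agent.Q60.CJ Pool.Agent.Q60.TP Pool.Agent.Q60.GL

section main

variable {K L : Type} [Field K] [CharZero K] [Field L] [CharZero L] [Algebra K L] {κ : Type}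
  [Fintype κ] [DecidableEq κ] {w : ℤ} {V : HodgeStructure κ w} {Q : Matrix κ κ ℚ}
  {Γ : Type*} [Group Γ] {ρ : Γ →* Matrix κ κ K}

/-- The centre of the commutant of the Lie algebra. -/
def CT (ρ : Γ →* Matrix κ κ K) (c : Matrix κ κ K) : Prop :=
  (∀ B ∈ LG ρ, B * c = c * B) ∧ ∀ a : Matrix κ κ K, (∀ B ∈ LG ρ, B * a = a * B) → a * c = c * a

/-- The trace condition for the commutant of the Lie algebra. -/
def TrT (V : HodgeStructure κ w) (ρ : Γ →* Matrix κ κ K) : Prop :=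
  ∀ B : Matrix κ κ K, InLieMumfordTate V.h B → ∃ B' ∈ LG ρ,
    ∀ c, CT ρ c → (B * c).trace = (B' * c).trace

lemma CT_one : CT ρ (1 : Matrix κ κ K) :=
  ⟨fun B _ => by rw [Matrix.mul_one, Matrix.one_mul],
    fun a _ => by rw [Matrix.mul_one, Matrix.one_mul]⟩

lemma CT_mul {x y : Matrix κ κ K} (hx : CT ρ x) (hy : CT ρ y) : CT ρ (x * y) :=
  ⟨fun B hB => by
    rw [← Matrix.mul_assoc, hx.1 B hB, Matrix.mul_assoc, hy.1 B hB, Matrix.mul_assoc],
    fun a ha => by
    rw [← Matrix.mul_assoc, hx.2 a ha, Matrix.mul_assoc, hy.2 a ha, Matrix.mul_assoc]⟩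

lemma CT_add {x y : Matrix κ κ K} (hx : CT ρ x) (hy : CT ρ y) : CT ρ (x + y) :=
  ⟨fun B hB => by rw [Matrix.mul_add, Matrix.add_mul, hx.1 B hB, hy.1 B hB],
    fun a ha => by rw [Matrix.mul_add, Matrix.add_mul, hx.2 a ha, hy.2 a ha]⟩

lemma CT_pow {x : Matrix κ κ K} (hx : CT ρ x) (n : ℕ) : CT ρ (x ^ n) := by
  induction n with
  | zero => rw [pow_zero]; exact CT_one
  | succ n ih => rw [pow_succ]; exact CT_mul ih hx

/-- **The trace form is nondegenerate on the centre of the commutant of a semisimple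
representation.** -/
theorem CT_trace (hss : SsV ρ) {x : Matrix κ κ K} (hx : CT ρ x)
    (h : ∀ c, CT ρ c → (x * c).trace = 0) : x = 0 := by
  -- the element is nilpotent
  have hnil : IsNilpotent (Matrix.toLin' x) := by
    refine Pool.Agent.W457.isNilpotent_of_trace_pow _ fun j => ?_
    have h1 : Matrix.toLin' x ^ (j + 1) = Matrix.toLin' (x * x ^ j) := by
      rw [← pow_succ', Matrix.toLin'_pow]
    rw [h1, Matrix.trace_toLin'_eq]
    exact h _ (CT_pow hx j)
  obtain ⟨N, hN⟩ := hnil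
  -- the projection onto the kernel
  let W : Submodule K (κ → K) := LinearMap.ker (Matrix.toLin' x)
  obtain ⟨p, hp1, hp2, hp3⟩ := (ss_iff (fun _ _ _ _ => Submodule.mem_top)).1 (ss_LG hss) W le_top
    (by
      rintro _ ⟨A, hA, rfl⟩ v hv
      have hv' : x *ᵥ v = 0 := by
        have h1 := LinearMap.mem_ker.1 hv
        rwa [Matrix.toLin'_apply] at h1
      change Matrix.toLin' A v ∈ W
      rw [LinearMap.mem_ker, Matrix.toLin'_apply, Matrix.toLin'_apply, Matrix.mulVec_mulVec,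
        ← hx.1 A hA, ← Matrix.mulVec_mulVec, hv', Matrix.mulVec_zero])
  have hpv : ∀ v, LinearMap.toMatrix' p *ᵥ v = p v := fun v => by
    rw [← Matrix.toLin'_apply, Matrix.toLin'_toMatrix']
  have hpc : ∀ B ∈ LG ρ, B * LinearMap.toMatrix' p = LinearMap.toMatrix' p * B := by
    intro B hB
    apply Matrix.toLin'.injective
    refine LinearMap.ext fun v => ?_
    rw [Matrix.toLin'_apply, Matrix.toLin'_apply, ← Matrix.mulVec_mulVec, ← Matrix.mulVec_mulVec,
      hpv, hpv]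
    exact (hp3 _ ⟨B, hB, rfl⟩ v Submodule.mem_top).symm
  have hpx := hx.2 _ hpc
  have hpx' : ∀ v, p (x *ᵥ v) = x *ᵥ p v := by
    intro v
    have h1 := congrArg (fun M => M *ᵥ v) hpx
    simp only [← Matrix.mulVec_mulVec] at h1
    rw [hpv, hpv] at h1
    exact h1
  have hpk : ∀ (k : ℕ) v, p ((x ^ k) *ᵥ v) = (x ^ k) *ᵥ p v := by
    intro k
    induction k with
    | zero => intro v; rw [pow_zero, Matrix.one_mulVec, Matrix.one_mulVec]
    | succ k ih =>
      intro v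
      rw [pow_succ, ← Matrix.mulVec_mulVec, ih, hpx', Matrix.mulVec_mulVec]
  have hker : ∀ v, x *ᵥ v = 0 → p v = v := fun v hv =>
    hp1 v (by
      change v ∈ W
      rw [LinearMap.mem_ker, Matrix.toLin'_apply]
      exact hv)
  have hxN : x ^ N = 0 := by
    have h1 : Matrix.toLin' (x ^ N) = 0 := by rw [Matrix.toLin'_pow, hN]
    exact (Matrix.toLin'.map_eq_zero_iff).1 h1
  have key : ∀ v, v - p v = 0 := by
    intro v
    have h2 : p (v - p v) = 0 := by
      rw [map_sub, hp1 _ (hp2 v Submodule.mem_top), sub_self]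
    have h3 : ∀ k, (x ^ k) *ᵥ (v - p v) = 0 → v - p v = 0 := by
      intro k
      induction k with
      | zero => intro h4; rwa [pow_zero, Matrix.one_mulVec] at h4
      | succ k ih =>
        intro h4
        refine ih ?_
        have h5 : x *ᵥ ((x ^ k) *ᵥ (v - p v)) = 0 := by
          rw [Matrix.mulVec_mulVec, ← pow_succ', h4]
        rw [← hker _ h5, hpk, h2, Matrix.mulVec_zero]
    exact h3 N (by rw [hxN, Matrix.zero_mulVec])
  have h4 : ∀ v, x *ᵥ v = 0 := by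
    intro v
    have h5 : v ∈ W := by
      have h6 := hp2 v Submodule.mem_top
      rwa [← sub_eq_zero.1 (key v)] at h6
    have h7 := LinearMap.mem_ker.1 h5
    rwa [Matrix.toLin'_apply] at h7
  apply Matrix.toLin'.injective
  refine LinearMap.ext fun v => ?_
  rw [Matrix.toLin'_apply, h4, map_zero, LinearMap.zero_apply]

/-- Commutators have trace zero against the commutant. -/
lemma trace_br {X Y c : Matrix κ κ K} (h : Y * c = c * Y) : ((X * Y - Y * X) * c).trace = 0 := by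
  rw [Matrix.sub_mul, Matrix.trace_sub, Matrix.mul_assoc, h, ← Matrix.mul_assoc,
    Matrix.trace_mul_comm (X * c) Y, ← Matrix.mul_assoc, sub_self]

/-- **The Lie algebra of the Mumford-Tate group is contained in the one of the monodromy group.** -/
theorem lie_ge_tate (τ : L ≃+* ℂ) (h : HypT V Q ρ) (ha : TrT V ρ) {y : Matrix κ κ K}
    (hy : y ∈ HL K h.pol) : y ∈ LG ρ := by
  rcases isEmpty_or_nonempty κ with hκ | hκ
  · have h8 : y = 0 := by
      ext i
      exact (hκ.false i).elim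
    rw [h8]
    exact Submodule.zero_mem _
  obtain ⟨ζ, hζ1, hζ2, hζ3⟩ := exists_zeta h.pol hy
  have h1 : y - ζ ∈ LG ρ := by
    refine mem_D h.pol (D := LG ρ) (fun X hX Y hY => (h.br hY hX).1)
      (Submodule.sub_mem _ hy hζ1) fun c hc => ?_
    rw [Matrix.sub_mul, Matrix.trace_sub, hζ3 c hc, sub_self]
  -- the projection onto the Lie algebra
  obtain ⟨P, hP0, hP1, hP2⟩ := h.sh.proj h.ss (W := (LG ρ ⊓ skS (toField K Q)).map
    (tvL (toField K Q))) (by
    rintro A hA _ ⟨X, hX, rfl⟩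
    exact ⟨_, h.sh.br hA hX, (am_tv hA.2 X).symm⟩)
  have hP := h.op_of_comm hP0
  have hP1' : ∀ X, pr (toField K Q) P X ∈ LG ρ ⊓ skS (toField K Q) := by
    intro X
    obtain ⟨Y, hY, hY'⟩ := hP1 (tv (toField K Q) X)
    have h1 : pr (toField K Q) P X = Y := by
      apply tv_inj h.sh.det
      rw [tv_pr h.sh.det]
      exact hY'.symm
    rw [h1]
    exact hY
  have hP2' : ∀ X ∈ LG ρ ⊓ skS (toField K Q), pr (toField K Q) P X = X := fun X hX =>
    pr_id h.sh.det (hP2 _ ⟨X, hX, rfl⟩)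
  have h2 : ∀ B ∈ LG ρ ⊓ skS (toField K Q), B * ζ - ζ * B ∈ LG ρ ⊓ skS (toField K Q) := by
    intro B hB
    have h2 := pr_br h.sh.det (HL_skew h.pol hζ1) (HL_comm h.pol hζ1 hP) B
    rw [hP2' B hB] at h2
    have h3 : B * ζ - ζ * B = -(ζ * B - B * ζ) := by rw [neg_sub]
    rw [h3, ← h2]
    exact Submodule.neg_mem _ (hP1' _)
  set g₁ := pr (toField K Q) P ζ with hg₁
  have h3 : ∀ B ∈ LG ρ ⊓ skS (toField K Q), B * (ζ - g₁) = (ζ - g₁) * B := by
    intro B hB
    have h3 := pr_br h.sh.det hB.2 (hP0 B hB) ζ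
    rw [hP2' _ (h2 B hB), ← hg₁] at h3
    rw [Matrix.mul_sub, Matrix.sub_mul, sub_eq_sub_iff_sub_eq_sub]
    exact h3
  have hcomm : ∀ c : Matrix κ κ K, (∀ B ∈ LG ρ ⊓ skS (toField K Q), B * c = c * B) →
      ∀ B ∈ LG ρ, B * c = c * B := by
    intro c hc B hB
    obtain ⟨μ, h4, -⟩ := h.dec hB
    have h5 := hc _ h4
    rw [Matrix.sub_mul, Matrix.mul_sub, Matrix.smul_mul, Matrix.mul_smul, Matrix.one_mul,
      Matrix.mul_one, sub_left_inj] at h5
    exact h5
  have hg₁' : g₁ ∈ LG ρ ⊓ skS (toField K Q) := hP1' ζ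
  have hCT1 : CT ρ (ζ - g₁) := by
    refine ⟨hcomm _ h3, fun a ha' => ?_⟩
    have h4 := h.cen (c := a) (fun B hB => ha' B hB.1) hζ1
    rw [Matrix.mul_sub, Matrix.sub_mul, h4, ha' _ hg₁'.1]
  -- the trace condition
  obtain ⟨B', hB', hBt⟩ := ha ζ (lie_of_dec τ h.pol (μ := 0)
    (by rw [zero_smul, sub_zero]; exact hζ1) fun _ => rfl)
  obtain ⟨μ, h4, -⟩ := h.dec hB'
  have h5 : μ = 0 := by
    refine neg_eq_zero.1 (scalar_zero h.pol (X := ζ - (B' - μ • 1)) (skw_sub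
      (HL_skew h.pol hζ1) h4.2) ?_)
    have h6 : ζ - (B' - μ • 1) + -μ • 1 = ζ - B' := by
      rw [neg_smul]
      abel
    have h7 := hBt 1 CT_one
    rw [Matrix.mul_one, Matrix.mul_one] at h7
    rw [h6, Matrix.trace_sub, h7, sub_self]
  rw [h5, zero_smul, sub_zero] at h4
  set g := g₁ - B' with hg
  have hg' : g ∈ LG ρ ⊓ skS (toField K Q) := Submodule.sub_mem _ hg₁' h4
  -- the commutators
  let U : Submodule K (Matrix κ κ K) := Submodule.span K
    {Z | ∃ X ∈ LG ρ ⊓ skS (toField K Q), ∃ Y ∈ LG ρ ⊓ skS (toField K Q), Z = X * Y - Y * X}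
  have hU : U ≤ LG ρ ⊓ skS (toField K Q) := by
    refine Submodule.span_le.2 ?_
    rintro _ ⟨X, hX, Y, hY, rfl⟩
    exact h.sh.br hX hY
  have hUs : ∀ A ∈ LG ρ ⊓ skS (toField K Q), ∀ X ∈ LG ρ ⊓ skS (toField K Q),
      A * X - X * A ∈ U := fun A hA X hX => Submodule.subset_span ⟨A, hA, X, hX, rfl⟩
  obtain ⟨P', hP0', hP1'', hP2''⟩ := h.sh.proj h.ss (W := U.map (tvL (toField K Q))) (by
    rintro A hA _ ⟨X, hX, rfl⟩
    exact ⟨_, hUs A hA X (hU hX), (am_tv hA.2 X).symm⟩)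
  have hP1u : ∀ X, pr (toField K Q) P' X ∈ U := by
    intro X
    obtain ⟨Y, hY, hY'⟩ := hP1'' (tv (toField K Q) X)
    have h1 : pr (toField K Q) P' X = Y := by
      apply tv_inj h.sh.det
      rw [tv_pr h.sh.det]
      exact hY'.symm
    rw [h1]
    exact hY
  have hP2u : ∀ X ∈ U, pr (toField K Q) P' X = X := fun X hX =>
    pr_id h.sh.det (hP2'' _ ⟨X, hX, rfl⟩)
  set u := pr (toField K Q) P' g with hu
  have h6 : ∀ A ∈ LG ρ ⊓ skS (toField K Q), A * (g - u) = (g - u) * A := by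
    intro A hA
    have h7 := pr_br h.sh.det hA.2 (hP0' A hA) g
    rw [hP2u _ (hUs A hA g hg'), ← hu] at h7
    rw [Matrix.mul_sub, Matrix.sub_mul, sub_eq_sub_iff_sub_eq_sub]
    exact h7
  have hzg : g - u ∈ LG ρ := Submodule.sub_mem _ hg'.1 (hU (hP1u g)).1
  have hCT2 : CT ρ (g - u) := ⟨hcomm _ h6, fun a ha' => (ha' _ hzg).symm⟩
  have hut : ∀ c, CT ρ c → (u * c).trace = 0 := by
    intro c hc
    refine Submodule.span_induction (p := fun u _ => (u * c).trace = 0) ?_ ?_ ?_ ?_ (hP1u g)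
    · rintro _ ⟨X, _, Y, hY, rfl⟩
      exact trace_br (hc.1 Y hY.1)
    · rw [Matrix.zero_mul, Matrix.trace_zero]
    · intro a b _ _ ha' hb'
      rw [Matrix.add_mul, Matrix.trace_add, ha', hb', add_zero]
    · intro r a _ ha'
      rw [Matrix.smul_mul, Matrix.trace_smul, ha', smul_zero]
  have h7 : (ζ - g₁) + (g - u) = 0 := by
    refine CT_trace h.ss (CT_add hCT1 hCT2) fun c hc => ?_
    have h8 : (ζ - g₁) + (g - u) = (ζ - B') - u := by
      rw [hg]
      abel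
    rw [h8, Matrix.sub_mul, Matrix.sub_mul, Matrix.trace_sub, Matrix.trace_sub, hBt c hc,
      sub_self, hut c hc, sub_self]
  have h8 : y = (y - ζ) + (g₁ - (g - u)) := by
    have h9 : ζ = g₁ - (g - u) := by
      have h10 : ζ = ((ζ - g₁) + (g - u)) + (g₁ - (g - u)) := by abel
      rw [h7, zero_add] at h10
      exact h10
    rw [← h9, sub_add_cancel]
  rw [h8]
  exact Submodule.add_mem _ h1 (Submodule.sub_mem _ hg₁'.1 hzg)

/-- **The second inclusion.** -/
theorem mtIn_tate (τ : L ≃+* ℂ) (h : HypT V Q ρ) (ha : TrT V ρ) : MTIn V ρ L := fun _ _ hg =>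
  mt_le_of h.pol h.one (fun _ hB => lie_ge_tate τ h ha hB) hg

end main

section final

variable {κ : Type} [Fintype κ] [DecidableEq κ] {w : ℤ} {V : HodgeStructure κ w}
  {Q : Matrix κ κ ℚ} {ℓ : ℕ} [Fact ℓ.Prime] {Γ : Type} [Group Γ] {ρ : Γ →* Matrix κ κ ℚ_[ℓ]}

/-- The Tate endomorphisms are the matrices which commute with the Lie algebra. -/
lemma tateEnd_iff {a : Matrix κ κ ℚ_[ℓ]} : IsTateEnd ρ a ↔ ∀ B ∈ LG ρ, B * a = a * B := by
  constructor
  · rintro ⟨Δ, hΔ, h⟩ B hB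
    have h1 : VComm ρ (K2 a 1) := ⟨Δ, hΔ, fun s hs => (K2_comm_iff (rho_det s)).2 (h s hs)⟩
    exact K2_comm (am_of_vcomm h1 hB)
  · intro h
    obtain ⟨Δ, hΔ, h1⟩ := vcomm_of_am (ρ := ρ) (M := K2 a 1) fun A hA => by
      rw [← sub_eq_zero, am_K2, h A hA, sub_self]
      ext I J
      simp [K2]
    exact ⟨Δ, hΔ, fun s hs => (K2_comm_iff (rho_det s)).1 (h1 s hs)⟩

lemma CT_iff {c : Matrix κ κ ℚ_[ℓ]} : IsCentralTateEnd ρ c ↔ CT ρ c :=
  and_congr tateEnd_iff (forall_congr' fun _ => imp_congr tateEnd_iff Iff.rfl)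

lemma aboveTate_iff : TracesAboveTate V ρ ↔ TrT V ρ :=
  forall_congr' fun _ => imp_congr Iff.rfl (exists_congr fun _ => and_congr lie_iff
    (forall_congr' fun _ => imp_congr CT_iff Iff.rfl))

/-- **The other inclusion of the Mumford-Tate conjecture.** -/
theorem mt_gen_iff (hQ : IsPolarisation V Q) (hρ : Similitudes w Q ρ)
    (hpure : w ≠ 0 → HasPureElement ρ) (hss : Semisimple ρ) :
    MumfordTateInMonodromy V.h ρ ↔ TateIsHodge V ρ ∧ TracesAboveTate V ρ := by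
  obtain ⟨τ⟩ := exists_iso ℓ
  constructor
  · intro h
    exact ⟨th_iff.2 (th_of_mtIn τ h), aboveTate_iff.2 fun B hB =>
      ⟨B, lie_le_of_mtIn τ hQ h hB, fun _ _ => rfl⟩⟩
  · rintro ⟨h1, h2⟩
    have h3 : HypT V Q ρ := ⟨hQ, hρ, one_of hQ hρ hpure, hss, th_iff.1 h1⟩
    exact mtIn_tate τ h3 (aboveTate_iff.1 h2)

end final

end Pool.Agent.Q60.GT
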