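import Pool.Agent.Q60.GT.Lie

/-!
# The Mumford-Tate conjecture, the tensor square and the traces
-/

set_option linter.unusedSectionVars false

namespace Pool.Agent.Q60.GT

open MvPolynomial Module Matrix Pool.Agent.Q60.ED Pool.Agent.Q60.FI Pool.Agent.Q60.TD
  Pool.Agent.Q60.NP Pool.Agent.Q60.MV Pool.Agent.Q60.CJ Pool.Agent.Q60.TP Pool.Agent.Q60.GL

section main

variable {K L : Type} [Field K] [CharZero K] [Field L] [CharZero L] [Algebra K L] {κ : Type}
  [Fintype κ] [DecidableEq κ] {w : ℤ} {V : HodgeStructure κ w} {Q : Matrix κ κ ℚ}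
  {Γ : Type*} [Group Γ] {ρ : Γ →* Matrix κ κ K}

/-- The trace condition in one direction. -/
def TrB (V : HodgeStructure κ w) (ρ : Γ →* Matrix κ κ K) : Prop :=
  ∀ B ∈ LG ρ, ∃ B' : Matrix κ κ K, InLieMumfordTate V.h B' ∧
    ∀ c, IsCentralEnd V c → (B * toField K c).trace = (B' * toField K c).trace

/-- The trace condition in the other direction. -/
def TrA (V : HodgeStructure κ w) (ρ : Γ →* Matrix κ κ K) : Prop :=
  ∀ B : Matrix κ κ K, InLieMumfordTate V.h B → ∃ B' ∈ LG ρ,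
    ∀ c, IsCentralEnd V c → (B * toField K c).trace = (B' * toField K c).trace

/-- Equality of traces on the span. -/
lemma trace_span {X Y : Matrix κ κ K}
    (h : ∀ c, IsCentralEnd V c → (X * toField K c).trace = (Y * toField K c).trace)
    {c : Matrix κ κ K} (hc : c ∈ SpM K (Subalgebra.toSubmodule (ZA V))) :
    (X * c).trace = (Y * c).trace := by
  rw [← sub_eq_zero, ← Matrix.trace_sub, ← Matrix.sub_mul]
  refine trace_SpM (fun d hd => ?_) hc
  rw [Matrix.sub_mul, Matrix.trace_sub, h d hd, sub_self]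

lemma one_ZK : (1 : Matrix κ κ K) ∈ SpM K (Subalgebra.toSubmodule (ZA V)) := by
  have h1 : (1 : Matrix κ κ K) = (1 : Matrix κ κ ℚ).map (algebraMap ℚ K) :=
    (Matrix.map_one _ (map_zero _) (map_one _)).symm
  rw [h1]
  exact map_mem_SpM (ZA V).one_mem

/-- The scalars are determined by the traces. -/
lemma scalar_zero (hQ : IsPolarisation V Q) [Nonempty κ] {X : Matrix κ κ K}
    (hX : Skw (toField K Q) X) {μ : K} (h : (X + μ • 1).trace = 0) : μ = 0 := by
  rw [Matrix.trace_add, skw_trace hQ hX, zero_add, Matrix.trace_smul, Matrix.trace_one,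
    smul_eq_mul] at h
  exact (mul_eq_zero.1 h).resolve_right (Nat.cast_ne_zero.2 Fintype.card_ne_zero)

lemma skw_add {X Y : Matrix κ κ K} (hX : Skw (toField K Q) X) (hY : Skw (toField K Q) Y) :
    Skw (toField K Q) (X + Y) := (skS (toField K Q)).add_mem hX hY

lemma skw_sub {X Y : Matrix κ κ K} (hX : Skw (toField K Q) X) (hY : Skw (toField K Q) Y) :
    Skw (toField K Q) (X - Y) := (skS (toField K Q)).sub_mem hX hY

/-- **The Lie algebra of the monodromy group is contained in the one of the Mumford-Tate group.** -/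
theorem lie_le_gen (hQ : IsPolarisation V Q) (hsim : SimK w Q ρ) (h : HTK V ρ) (htr : TrB V ρ)
    {B : Matrix κ κ K} (hB : B ∈ LG ρ) :
    ∃ μ : K, B - μ • 1 ∈ HL K hQ ∧ (w = 0 → μ = 0) := by
  obtain ⟨μ, h1, h2⟩ := decomp (pol_det hQ) hsim hB
  refine ⟨μ, ?_, h2⟩
  have hdK := toField_det (K := K) (pol_det hQ)
  set B₀ := B - μ • 1 with hB₀
  -- the matrix commutes with the Hodge operators
  have h3 : ∀ P ∈ SpM K (HE V), am B₀ 2 * P = P * am B₀ 2 := by
    intro P hP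
    apply comm_dec (μ := -μ)
    have h4 : B₀ - -μ • 1 = B := by
      rw [neg_smul, sub_neg_eq_add, hB₀, sub_add_cancel]
    rw [h4]
    refine Submodule.span_induction (p := fun P _ => am B 2 * P = P * am B 2) ?_ ?_ ?_ ?_ hP
    · rintro _ ⟨A, hA, rfl⟩
      exact am_of_vcomm (h A hA) hB
    · rw [Matrix.mul_zero, Matrix.zero_mul]
    · intro x y _ _ hx hy
      rw [Matrix.mul_add, Matrix.add_mul, hx, hy]
    · intro c x _ hx
      rw [Matrix.mul_smul, Matrix.smul_mul, hx]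
  obtain ⟨P, hP, hP1, hP2⟩ := HL_proj (K := K) hQ
  set y := pr (toField K Q) P B₀ with hy
  have hyH : y ∈ HL K hQ := hP1 _
  have h4 : ∀ x ∈ HL K hQ, x * B₀ - B₀ * x ∈ HL K hQ := by
    intro x hx
    have h5 := pr_br hdK h1 (h3 P hP) x
    rw [hP2 x hx] at h5
    have h6 : B₀ * x - x * B₀ ∈ HL K hQ := by
      rw [← h5]
      exact hP1 _
    have h7 := Submodule.neg_mem _ h6
    rwa [neg_sub] at h7
  have h5 : ∀ x ∈ HL K hQ, x * (B₀ - y) = (B₀ - y) * x := by
    intro x hx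
    have h6 := pr_br hdK (HL_skew hQ hx) (HL_comm hQ hx hP) B₀
    rw [hP2 _ (h4 x hx), ← hy] at h6
    rw [Matrix.mul_sub, Matrix.sub_mul, sub_eq_sub_iff_sub_eq_sub]
    exact h6
  have hz : B₀ - y ∈ SpM K (Subalgebra.toSubmodule (ZA V)) := by
    refine central_mem hQ h5 fun a ha => ?_
    have h6 := K2_comm (h3 _ (K2_end ha))
    have h7 := K2_comm (HL_comm hQ hyH (K2_end ha))
    rw [Matrix.mul_sub, Matrix.sub_mul, h6, h7]
  -- the traces
  obtain ⟨B', hB', hBt⟩ := htr B hB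
  obtain ⟨μ', h6, h7⟩ := lie_dec hQ hB'
  rcases isEmpty_or_nonempty κ with hκ | hκ
  · have h8 : B₀ = 0 := by
      ext i
      exact (hκ.false i).elim
    rw [h8]
    exact Submodule.zero_mem _
  set y' := B' - μ' • 1 with hy'
  have hBB : B - B' = (B₀ - y) + (y - y') + (μ - μ') • 1 := by
    rw [hB₀, hy', sub_smul]
    abel
  have h8 : ∀ c ∈ SpM K (Subalgebra.toSubmodule (ZA V)), ((B - B') * c).trace = 0 := by
    intro c hc
    rw [Matrix.sub_mul, Matrix.trace_sub, trace_span hBt hc, sub_self]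
  have hsk : Skw (toField K Q) ((B₀ - y) + (y - y')) :=
    skw_add (skw_sub h1 (HL_skew hQ hyH)) (skw_sub (HL_skew hQ hyH) (HL_skew hQ h6))
  have h9 : μ - μ' = 0 := by
    refine scalar_zero hQ hsk ?_
    rw [← hBB]
    have h10 := h8 1 one_ZK
    rwa [Matrix.mul_one] at h10
  obtain ⟨ζ, hζ1, hζ2, hζ3⟩ := exists_zeta hQ (Submodule.sub_mem _ h6 hyH)
  have h10 : B₀ - y - ζ = 0 := by
    refine ZK_trace hQ (Submodule.sub_mem _ hz hζ2) fun c hc => ?_
    have h11 := h8 c hc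
    rw [hBB, h9, zero_smul, add_zero, Matrix.add_mul, Matrix.trace_add] at h11
    rw [Matrix.sub_mul, Matrix.trace_sub, hζ3 c hc]
    have h12 : ((y - y') * c).trace = -((y' - y) * c).trace := by
      rw [← Matrix.trace_neg, ← Matrix.neg_mul, neg_sub]
    rw [h12] at h11
    rw [sub_eq_add_neg]
    exact h11
  have h11 : B₀ = ζ + y := by
    rw [sub_eq_zero] at h10
    rw [← h10, sub_add_cancel]
  rw [h11]
  exact Submodule.add_mem _ hζ1 hyH

/-- **The first inclusion.** -/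
theorem monIn_gen (hQ : IsPolarisation V Q) (hsim : SimK w Q ρ) (h : HTK V ρ) (htr : TrB V ρ) :
    MonIn V ρ L := fun _ _ hg =>
  mon_le_of hQ (fun _ hB => lie_le_gen hQ hsim h htr hB) hg

/-- The converse. -/
theorem trB_of (τ : L ≃+* ℂ) (h : MonIn V ρ L) : TrB V ρ := fun B hB =>
  ⟨B, lie_of_gx τ fun t => h _ (gx_det τ _ _) (inMon_gx τ hB t), fun _ _ => rfl⟩

/-- **The Lie algebra of the Mumford-Tate group is contained in the one of the monodromy group.** -/
theorem lie_ge_gen (τ : L ≃+* ℂ) (h : HypT V Q ρ) (hht : HTK V ρ) (hb : TrB V ρ)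
    (ha : TrA V ρ) {y : Matrix κ κ K} (hy : y ∈ HL K h.pol) : y ∈ LG ρ := by
  rcases isEmpty_or_nonempty κ with hκ | hκ
  · have h8 : y = 0 := by
      ext i
      exact (hκ.false i).elim
    rw [h8]
    exact Submodule.zero_mem _
  have hD : ∀ u ∈ HL K h.pol, (∀ c ∈ SpM K (Subalgebra.toSubmodule (ZA V)),
      (u * c).trace = 0) → u ∈ LG ρ := fun u hu hc =>
    mem_D h.pol (D := LG ρ) (fun X hX Y hY => (h.br hY hX).1) hu hc
  obtain ⟨ζ, hζ1, hζ2, hζ3⟩ := exists_zeta h.pol hy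
  have h1 : y - ζ ∈ LG ρ := by
    refine hD _ (Submodule.sub_mem _ hy hζ1) fun c hc => ?_
    rw [Matrix.sub_mul, Matrix.trace_sub, hζ3 c hc, sub_self]
  obtain ⟨B', hB', hBt⟩ := ha ζ (lie_of_dec τ h.pol (μ := 0)
    (by rw [zero_smul, sub_zero]; exact hζ1) fun _ => rfl)
  obtain ⟨μ, h2, -⟩ := lie_le_gen h.pol h.sim hht hb hB'
  have h3 : μ = 0 := by
    refine neg_eq_zero.1 (scalar_zero h.pol (X := ζ - (B' - μ • 1)) (skw_sub
      (HL_skew h.pol hζ1) (HL_skew h.pol h2)) ?_)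
    have h4 : ζ - (B' - μ • 1) + -μ • 1 = ζ - B' := by
      rw [neg_smul]
      abel
    have h5 := trace_span hBt one_ZK
    rw [Matrix.mul_one, Matrix.mul_one] at h5
    rw [h4, Matrix.trace_sub, h5, sub_self]
  rw [h3, zero_smul, sub_zero] at h2
  have h4 : B' - ζ ∈ LG ρ := by
    refine hD _ (Submodule.sub_mem _ h2 hζ1) fun c hc => ?_
    rw [Matrix.sub_mul, Matrix.trace_sub, trace_span hBt hc, sub_self]
  have h5 : y = (y - ζ) + (B' - (B' - ζ)) := by abel
  rw [h5]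
  exact Submodule.add_mem _ h1 (Submodule.sub_mem _ hB' h4)

/-- The second inclusion, if the first one holds. -/
theorem mtIn_gen (τ : L ≃+* ℂ) (h : HypT V Q ρ) (hht : HTK V ρ) (hb : TrB V ρ)
    (ha : TrA V ρ) : MTIn V ρ L := fun _ _ hg =>
  mt_le_of h.pol h.one (fun _ hB => lie_ge_gen τ h hht hb ha hB) hg

/-- The Lie algebra of the Mumford-Tate group is contained in the one of the monodromy group if the
group is. -/
theorem lie_le_of_mtIn (τ : L ≃+* ℂ) (hQ : IsPolarisation V Q) (h : MTIn V ρ L)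
    {B : Matrix κ κ K} (hB : InLieMumfordTate V.h B) : B ∈ LG ρ := by
  refine mem_LG_of_gx τ fun t => h _ (gx_det τ _ _) (inMT_gx τ hQ (fun a b A hA => ?_) t)
  have h5 := congrArg (fun M => M.map (algebraMap K L)) (comm_of_lie hB hA)
  simp only [Matrix.map_mul, toField_map, ← am_map] at h5
  exact h5

/-- The converse. -/
theorem trA_of (τ : L ≃+* ℂ) (hQ : IsPolarisation V Q) (h : MTIn V ρ L) : TrA V ρ := fun B hB =>
  ⟨B, lie_le_of_mtIn τ hQ h hB, fun _ _ => rfl⟩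

end main

section final

variable {κ : Type} [Fintype κ] [DecidableEq κ] {w : ℤ} {V : HodgeStructure κ w}
  {Q : Matrix κ κ ℚ} {ℓ : ℕ} [Fact ℓ.Prime] {Γ : Type} [Group Γ] {ρ : Γ →* Matrix κ κ ℚ_[ℓ]}

lemma lie_iff {B : Matrix κ κ ℚ_[ℓ]} : InLieMonodromy ρ B ↔ B ∈ LG ρ := by
  rw [mem_LG]
  constructor
  · intro h Δ hΔ f hf
    exact h f ⟨Δ, hΔ, fun s hs => mem_VG.1 hf s hs⟩
  · rintro h f ⟨Δ, hΔ, hf⟩
    exact h Δ hΔ f (mem_VG.2 hf)

lemma below_iff : TracesBelow V ρ ↔ TrB V ρ :=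
  forall_congr' fun _ => imp_congr lie_iff Iff.rfl

lemma above_iff : TracesAbove V ρ ↔ TrA V ρ :=
  forall_congr' fun _ => imp_congr Iff.rfl (exists_congr fun _ => and_congr lie_iff Iff.rfl)

variable (hQ : IsPolarisation V Q) (hρ : Similitudes w Q ρ)

include hQ hρ

/-- **One inclusion of the Mumford-Tate conjecture.** -/
theorem mon_gen_iff : MonodromyInMumfordTate V.h ρ ↔ HodgeIsTate V ρ ∧ TracesBelow V ρ := by
  obtain ⟨τ⟩ := exists_iso ℓ
  constructor
  · intro h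
    exact ⟨ht_iff.2 (ht_of_monIn (L := AlgebraicClosure ℚ_[ℓ]) h), below_iff.2 (trB_of τ h)⟩
  · rintro ⟨h1, h2⟩
    exact monIn_gen (L := AlgebraicClosure ℚ_[ℓ]) hQ hρ (ht_iff.1 h1) (below_iff.1 h2)

variable (hpure : w ≠ 0 → HasPureElement ρ)

include hpure

/-- **The Mumford-Tate conjecture.** -/
theorem mtc_gen : MumfordTateConjecture V.h ρ ↔ Semisimple ρ ∧ HodgeIsTate V ρ ∧
    TateIsHodge V ρ ∧ TracesBelow V ρ ∧ TracesAbove V ρ := by
  obtain ⟨τ⟩ := exists_iso ℓ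
  constructor
  · intro h
    have h2 := mtc_and.1 h
    exact ⟨ss_of_mtc hQ τ (mtc_iff.1 h),
      ht_iff.2 (ht_of_monIn (L := AlgebraicClosure ℚ_[ℓ]) h2.1), th_iff.2 (th_of_mtIn τ h2.2),
      below_iff.2 (trB_of τ h2.1), above_iff.2 (trA_of τ hQ h2.2)⟩
  · rintro ⟨hss, h1, h2, h3, h4⟩
    have h5 : HypT V Q ρ := ⟨hQ, hρ, one_of hQ hρ hpure, hss, th_iff.1 h2⟩
    exact mtc_and.2 ⟨(mon_gen_iff hQ hρ).2 ⟨h1, h3⟩,
      mtIn_gen τ h5 (ht_iff.1 h1) (below_iff.1 h3) (above_iff.1 h4)⟩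

end final

end Pool.Agent.Q60.GT
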